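import Mathlib

/-!
Combinatorial core for the extremal problem on extended promotion: for a finite set `S` in a
poset, the orderings `l` of `S` (as lists), the number `cc l` of chains of good elements that
contain the last entry of `l`, and the bound `6 * ∑ cc l ^ 2 ≤ (|S| + 2)!`.
-/

namespace Pool.Agent.Promotion

open Finset List

set_option linter.unusedSectionVars false

variable {α : Type*} [DecidableEq α]

/-- orderings of a finite set -/
noncomputable def ord (S : Finset α) : Finset (List α) := S.toList.permutations.toFinset

lemma mem_ord {S : Finset α} {l : List α} : l ∈ ord S ↔ l.Nodup ∧ ∀ x, x ∈ l ↔ x ∈ S := by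
  unfold ord
  rw [List.mem_toFinset, List.mem_permutations]
  constructor
  · intro h
    refine ⟨h.nodup_iff.mpr S.nodup_toList, fun x => ?_⟩
    rw [h.mem_iff, Finset.mem_toList]
  · rintro ⟨hn, hx⟩
    rw [List.perm_ext_iff_of_nodup hn S.nodup_toList]
    intro a
    rw [hx, Finset.mem_toList]

lemma length_of_mem_ord {S : Finset α} {l : List α} (h : l ∈ ord S) : l.length = S.card := by
  unfold ord at h
  rw [List.mem_toFinset, List.mem_permutations] at h
  rw [h.length_eq, Finset.length_toList]

lemma insertIdx_eq (l : List α) (i : ℕ) (hi : i ≤ l.length) (t : α) :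
    l.insertIdx i t = l.take i ++ t :: l.drop i := by
  induction l generalizing i with
  | nil =>
    have : i = 0 := by simpa using hi
    subst this
    simp
  | cons a l ih =>
    cases i with
    | zero => simp
    | succ i =>
      simp only [List.insertIdx_succ_cons, List.take_succ_cons, List.drop_succ_cons, List.cons_append]
      rw [ih i (by simpa using hi)]

lemma idxOf_insertIdx {l : List α} {i : ℕ} (hi : i ≤ l.length) {t : α} (ht : t ∉ l) :
    (l.insertIdx i t).idxOf t = i := by
  induction l generalizing i with
  | nil =>
    have : i = 0 := by simpa using hi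
    subst this
    simp
  | cons a l ih =>
    have hat : a ≠ t := fun h => ht (by simp [h])
    have htl : t ∉ l := fun h => ht (by simp [h])
    cases i with
    | zero => simp
    | succ i =>
      simp only [List.insertIdx_succ_cons]
      rw [List.idxOf_cons_ne _ hat, ih (by simpa using hi) htl]

lemma erase_insertIdx {l : List α} {i : ℕ} (hi : i ≤ l.length) {t : α} (ht : t ∉ l) :
    (l.insertIdx i t).erase t = l := by
  induction l generalizing i with
  | nil =>
    have : i = 0 := by simpa using hi
    subst this
    simp
  | cons a l ih =>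
    have hat : a ≠ t := fun h => ht (by simp [h])
    have htl : t ∉ l := fun h => ht (by simp [h])
    cases i with
    | zero => simp
    | succ i =>
      simp only [List.insertIdx_succ_cons]
      rw [List.erase_cons_tail (by simpa using hat), ih (by simpa using hi) htl]

lemma insertIdx_idxOf_erase {l : List α} {t : α} (ht : t ∈ l) :
    (l.erase t).insertIdx (l.idxOf t) t = l := by
  induction l with
  | nil => simp at ht
  | cons a l ih =>
    by_cases hat : a = t
    · subst hat
      simp
    · have htl : t ∈ l := by
        rcases List.mem_cons.mp ht with h | h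
        · exact absurd h.symm hat
        · exact h
      rw [List.erase_cons_tail (by simpa using hat), List.idxOf_cons_ne _ hat]
      simp only [List.insertIdx_succ_cons]
      rw [ih htl]

lemma sum_ord_insert {M : Type*} [AddCommMonoid M] {S : Finset α} {t : α} (ht : t ∉ S)
    (φ : List α → M) :
    ∑ l ∈ ord (insert t S), φ l = ∑ l ∈ ord S, ∑ i ∈ Finset.range (S.card + 1), φ (l.insertIdx i t) := by
  rw [Finset.sum_sigma']
  refine Finset.sum_bij' (fun l _ => (⟨l.erase t, l.idxOf t⟩ : (_ : List α) × ℕ))
    (fun p _ => p.1.insertIdx p.2 t) ?_ ?_ ?_ ?_ ?_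
  · intro l hl
    have hm := mem_ord.mp hl
    have htl : t ∈ l := (hm.2 t).mpr (Finset.mem_insert_self t S)
    rw [Finset.mem_sigma]
    refine ⟨mem_ord.mpr ⟨hm.1.erase t, fun x => ?_⟩, ?_⟩
    · rw [hm.1.mem_erase_iff, hm.2 x, Finset.mem_insert]
      constructor
      · rintro ⟨h1, h2 | h2⟩
        · exact absurd h2 h1
        · exact h2
      · intro h
        exact ⟨fun h' => ht (h' ▸ h), Or.inr h⟩
    · simp only
      rw [Finset.mem_range]
      have h1 : l.idxOf t < l.length := List.idxOf_lt_length_iff.mpr htl
      rw [length_of_mem_ord hl, Finset.card_insert_of_notMem ht] at h1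
      exact h1
  · rintro ⟨l, i⟩ hp
    rw [Finset.mem_sigma, Finset.mem_range] at hp
    obtain ⟨hl, hi⟩ := hp
    simp only at hl hi ⊢
    have hm := mem_ord.mp hl
    have hil : i ≤ l.length := by rw [length_of_mem_ord hl]; omega
    have hp := List.perm_insertIdx t l hil
    have htl : t ∉ l := fun h => ht ((hm.2 t).mp h)
    refine mem_ord.mpr ⟨hp.nodup_iff.mpr (List.nodup_cons.mpr ⟨htl, hm.1⟩), fun x => ?_⟩
    rw [hp.mem_iff, List.mem_cons, hm.2 x, Finset.mem_insert]
  · intro l hl
    have hm := mem_ord.mp hl
    have htl : t ∈ l := (hm.2 t).mpr (Finset.mem_insert_self t S)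
    exact insertIdx_idxOf_erase htl
  · rintro ⟨l, i⟩ hp
    rw [Finset.mem_sigma, Finset.mem_range] at hp
    obtain ⟨hl, hi⟩ := hp
    simp only at hl hi ⊢
    have hm := mem_ord.mp hl
    have hil : i ≤ l.length := by rw [length_of_mem_ord hl]; omega
    have htl : t ∉ l := fun h => ht ((hm.2 t).mp h)
    rw [erase_insertIdx hil htl, idxOf_insertIdx hil htl]
  · intro l hl
    have hm := mem_ord.mp hl
    have htl : t ∈ l := (hm.2 t).mpr (Finset.mem_insert_self t S)
    simp only
    rw [insertIdx_idxOf_erase htl]

lemma findIdx_insertIdx (p : α → Bool) (l : List α) (i : ℕ) (hi : i ≤ l.length) (t : α)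
    (ht : p t = false) :
    (l.insertIdx i t).findIdx p = if i ≤ l.findIdx p then l.findIdx p + 1 else l.findIdx p := by
  induction l generalizing i with
  | nil =>
    have : i = 0 := by simpa using hi
    subst this
    simp [List.findIdx_cons, ht]
  | cons a l ih =>
    cases i with
    | zero => simp [List.findIdx_cons, ht]
    | succ i =>
      simp only [List.insertIdx_succ_cons]
      rw [List.findIdx_cons, List.findIdx_cons, ih i (by simpa using hi)]
      by_cases ha : p a
      · simp [ha]
      · simp only [ha, cond_false, Nat.add_le_add_iff_right]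
        split_ifs <;> rfl

lemma sum_range_ite_le (m r a b : ℕ) (hr : r < m) :
    ∑ i ∈ Finset.range m, (if i ≤ r then a else b) = (r + 1) * a + (m - (r + 1)) * b := by
  have h1 : m = (r + 1) + (m - (r + 1)) := by omega
  conv_lhs => rw [h1]
  rw [Finset.sum_range_add]
  congr 1
  · rw [Finset.sum_congr rfl (g := fun _ => a)]
    · simp
    · intro i hi
      rw [Finset.mem_range] at hi
      rw [if_pos (by omega)]
  · rw [Finset.sum_congr rfl (g := fun _ => b)]
    · simp
    · intro i hi
      rw [if_neg (by omega)]

/-- the last entry of the list satisfies `p` -/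
def LastIn (p : α → Bool) (l : List α) : Prop := ∃ x, l.getLast? = some x ∧ p x = true

noncomputable instance (p : α → Bool) (l : List α) : Decidable (LastIn p l) := Classical.propDecidable _

/-- the weight used in the averaging lemma -/
noncomputable def wt (p : α → Bool) (h : List α → ℕ) (l : List α) : ℕ :=
  if LastIn p l then (l.findIdx p + 1) * (l.findIdx p + 2) * h (l.filter p) else 0

lemma filter_insertIdx (p : α → Bool) (l : List α) (i : ℕ) (hi : i ≤ l.length) (t : α)
    (ht : p t = false) : (l.insertIdx i t).filter p = l.filter p := by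
  rw [insertIdx_eq l i hi t, List.filter_append, List.filter_cons_of_neg (by simp [ht]),
    ← List.filter_append, List.take_append_drop]

lemma getLast?_insertIdx (l : List α) (i : ℕ) (hi : i < l.length) (t : α) :
    (l.insertIdx i t).getLast? = l.getLast? := by
  rw [insertIdx_eq l i hi.le t]
  have h : l.drop i ≠ [] := by
    intro h
    rw [List.drop_eq_nil_iff] at h
    omega
  conv_rhs => rw [← List.take_append_drop i l]
  rw [List.getLast?_append, List.getLast?_append, List.getLast?_cons_of_ne_nil h]

lemma wt_insert (p : α → Bool) (h : List α → ℕ) (l : List α) (t : α) (ht : p t = false) :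
    ∑ i ∈ Finset.range (l.length + 1), wt p h (l.insertIdx i t) = (l.length + 2) * wt p h l := by
  rw [Finset.sum_range_succ]
  have hlast : wt p h (l.insertIdx l.length t) = 0 := by
    unfold wt
    rw [if_neg]
    rintro ⟨x, hx, hpx⟩
    rw [insertIdx_eq l _ le_rfl t] at hx
    simp only [List.take_length, List.drop_length, List.getLast?_append, List.getLast?_singleton,
      Option.some_or, Option.some.injEq] at hx
    subst hx
    rw [ht] at hpx
    exact Bool.false_ne_true hpx
  rw [hlast, add_zero]
  by_cases hl : LastIn p l
  · have hr : l.findIdx p < l.length := by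
      obtain ⟨x, hx, hpx⟩ := hl
      exact List.findIdx_lt_length_of_exists ⟨x, List.mem_of_getLast? hx, hpx⟩
    have key : ∀ i ∈ Finset.range l.length, wt p h (l.insertIdx i t) =
        if i ≤ l.findIdx p then (l.findIdx p + 2) * (l.findIdx p + 3) * h (l.filter p)
        else (l.findIdx p + 1) * (l.findIdx p + 2) * h (l.filter p) := by
      intro i hi
      rw [Finset.mem_range] at hi
      unfold wt
      rw [if_pos]
      · rw [findIdx_insertIdx p l i hi.le t ht, filter_insertIdx p l i hi.le t ht]
        split_ifs <;> ring
      · obtain ⟨x, hx, hpx⟩ := hl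
        exact ⟨x, by rw [getLast?_insertIdx l i hi t, hx], hpx⟩
    rw [Finset.sum_congr rfl key, sum_range_ite_le _ _ _ _ hr]
    unfold wt
    rw [if_pos hl]
    obtain ⟨k, hk⟩ := Nat.exists_eq_add_of_lt hr
    rw [hk]
    have : l.findIdx p + k + 1 - (l.findIdx p + 1) = k := by omega
    rw [this]
    ring
  · have key : ∀ i ∈ Finset.range l.length, wt p h (l.insertIdx i t) = 0 := by
      intro i hi
      rw [Finset.mem_range] at hi
      unfold wt
      rw [if_neg]
      rintro ⟨x, hx, hpx⟩
      exact hl ⟨x, by rw [← getLast?_insertIdx l i hi t, hx], hpx⟩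
    rw [Finset.sum_congr rfl key]
    unfold wt
    rw [if_neg hl]
    simp

lemma sum_wt (p : α → Bool) (h : List α → ℕ) (U : Finset α) (hU : ∀ x ∈ U, p x = true)
    (hne : U.Nonempty) (D : Finset α) (hD : ∀ x ∈ D, p x = false) :
    (U.card + 1).factorial * ∑ l ∈ ord (D ∪ U), wt p h l =
      2 * ((D ∪ U).card + 1).factorial * ∑ l ∈ ord U, h l := by
  induction D using Finset.induction_on with
  | empty =>
    rw [Finset.empty_union]
    have key : ∀ l ∈ ord U, wt p h l = 2 * h l := by
      intro l hl
      have hm := mem_ord.mp hl
      have hall : ∀ x ∈ l, p x = true := fun x hx => hU x ((hm.2 x).mp hx)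
      have hlne : l ≠ [] := by
        obtain ⟨x, hx⟩ := hne
        intro h'
        have := (hm.2 x).mpr hx
        rw [h'] at this
        simp at this
      unfold wt
      rw [if_pos]
      · have h0 : l.findIdx p = 0 := by
          cases l with
          | nil => rfl
          | cons a l => simp [List.findIdx_cons, hall a (by simp)]
        rw [h0, List.filter_eq_self.mpr hall]
      · refine ⟨l.getLast hlne, List.getLast?_eq_some_getLast hlne, hall _ (List.getLast_mem hlne)⟩
    rw [Finset.sum_congr rfl key, ← Finset.mul_sum]
    ring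
  | insert t D ht ih =>
    have hpt : p t = false := hD t (Finset.mem_insert_self t D)
    have ih' := ih (fun x hx => hD x (Finset.mem_insert_of_mem hx))
    have htU : t ∉ U := fun h' => by rw [hU t h'] at hpt; exact Bool.false_ne_true hpt.symm
    have htDU : t ∉ D ∪ U := by
      rw [Finset.mem_union]
      rintro (h' | h')
      · exact ht h'
      · exact htU h'
    rw [Finset.insert_union, sum_ord_insert htDU, Finset.card_insert_of_notMem htDU]
    have key : ∀ l ∈ ord (D ∪ U), ∑ i ∈ Finset.range ((D ∪ U).card + 1), wt p h (l.insertIdx i t) =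
        ((D ∪ U).card + 2) * wt p h l := by
      intro l hl
      rw [← length_of_mem_ord hl]
      exact wt_insert p h l t hpt
    rw [Finset.sum_congr rfl key, ← Finset.mul_sum]
    have h2 : ((D ∪ U).card + 1 + 1).factorial = ((D ∪ U).card + 2) * ((D ∪ U).card + 1).factorial :=
      Nat.factorial_succ _
    rw [h2]
    calc (U.card + 1).factorial * (((D ∪ U).card + 2) * ∑ l ∈ ord (D ∪ U), wt p h l)
        = ((D ∪ U).card + 2) * ((U.card + 1).factorial * ∑ l ∈ ord (D ∪ U), wt p h l) := by ring
      _ = _ := by rw [ih']; ring

section Poset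

variable [PartialOrder α]

/-- `y` comes before `z` in the list `l` -/
def Before (l : List α) (y z : α) : Prop := [y, z] <+ l

/-- `z` is a good entry of `l`: nothing above `z` comes before it -/
def Gd (l : List α) (z : α) : Prop := z ∈ l ∧ ∀ y, z < y → ¬ Before l y z

/-- the chains of good entries of `l` that contain the last entry -/
noncomputable def cset (l : List α) : Finset (Finset α) := by
  classical
  exact l.toFinset.powerset.filter (fun C => IsChain (· ≤ ·) (C : Set α) ∧ (∀ z ∈ C, Gd l z) ∧
    ∃ x ∈ C, l.getLast? = some x)

lemma mem_cset {l : List α} {C : Finset α} : C ∈ cset l ↔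
    C ⊆ l.toFinset ∧ IsChain (· ≤ ·) (C : Set α) ∧ (∀ z ∈ C, Gd l z) ∧
      ∃ x ∈ C, l.getLast? = some x := by
  classical
  unfold cset
  rw [Finset.mem_filter, Finset.mem_powerset]

noncomputable def cc (l : List α) : ℕ := (cset l).card

noncomputable instance decLT : DecidableRel (fun a b : α => a < b) := fun _ _ => Classical.propDecidable _

/-- the boolean predicate `z < ·` -/
noncomputable def above (z : α) : α → Bool := fun y => decide (z < y)

lemma above_iff {z y : α} : above z y = true ↔ z < y := by
  unfold above; simp

lemma cc_insert_le (l : List α) (z : α) (hz : z ∉ l) (hmin : ∀ y ∈ l, ¬ y < z) (i : ℕ)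
    (hi : i < l.length) :
    cc (l.insertIdx i z) ≤ cc l +
      if i ≤ l.findIdx (above z) ∧ LastIn (above z) l then cc (l.filter (above z)) else 0 := by
  classical
  have hsub : l <+ l.insertIdx i z := by
    rw [insertIdx_eq l i hi.le z]
    conv_lhs => rw [← List.take_append_drop i l]
    exact List.Sublist.append_left (List.sublist_cons_self z _) _
  have hmem : ∀ x, x ∈ l.insertIdx i z ↔ x = z ∨ x ∈ l := by
    intro x
    rw [(List.perm_insertIdx z l hi.le).mem_iff, List.mem_cons]
  have hlast := getLast?_insertIdx l i hi z
  -- chains without `z`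
  have h1 : ∀ C ∈ cset (l.insertIdx i z), z ∉ C → C ∈ cset l := by
    intro C hC hzC
    obtain ⟨hs, hch, hg, x, hx, hlx⟩ := mem_cset.mp hC
    refine mem_cset.mpr ⟨?_, hch, ?_, x, hx, by rw [← hlast, hlx]⟩
    · intro y hy
      have := hs hy
      rw [List.mem_toFinset] at this ⊢
      rcases (hmem y).mp this with h | h
      · exact absurd (h ▸ hy) hzC
      · exact h
    · intro y hy
      obtain ⟨hy1, hy2⟩ := hg y hy
      refine ⟨?_, fun w hw hb => hy2 w hw (List.Sublist.trans hb hsub)⟩
      rcases (hmem y).mp hy1 with h | h
      · exact absurd (h ▸ hy) hzC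
      · exact h
  -- chains with `z`
  have h2 : ∀ C ∈ cset (l.insertIdx i z), z ∈ C →
      (i ≤ l.findIdx (above z) ∧ LastIn (above z) l) ∧ C.erase z ∈ cset (l.filter (above z)) := by
    intro C hC hzC
    obtain ⟨hs, hch, hg, x, hx, hlx⟩ := mem_cset.mp hC
    rw [hlast] at hlx
    have hxl : x ∈ l := List.mem_of_getLast? hlx
    have hgt : ∀ y ∈ C, y ≠ z → z < y := by
      intro y hy hyz
      have hyl : y ∈ l := by
        have := hs hy
        rw [List.mem_toFinset] at this
        rcases (hmem y).mp this with h | h
        · exact absurd h hyz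
        · exact h
      rcases hch (Finset.mem_coe.mpr hy) (Finset.mem_coe.mpr hzC) hyz with h | h
      · exact absurd (lt_of_le_of_ne h hyz) (hmin y hyl)
      · exact lt_of_le_of_ne h (Ne.symm hyz)
    have hxz : x ≠ z := fun h => hz (h ▸ hxl)
    have hzx : z < x := hgt x hx hxz
    refine ⟨⟨?_, x, hlx, above_iff.mpr hzx⟩, mem_cset.mpr ⟨?_, ?_, ?_, x, ?_, ?_⟩⟩
    · -- position of `z`
      by_contra hlt
      rw [not_le] at hlt
      have hlen : l.findIdx (above z) < l.length := by omega
      have hu : above z (l[l.findIdx (above z)]) = true := List.findIdx_getElem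
      have hub : Before (l.insertIdx i z) (l[l.findIdx (above z)]) z := by
        unfold Before
        rw [insertIdx_eq l i hi.le z]
        have hmem' : l[l.findIdx (above z)] ∈ l.take i := by
          rw [List.mem_take_iff_getElem]
          exact ⟨l.findIdx (above z), by omega, rfl⟩
        have e : [l[l.findIdx (above z)], z] = [l[l.findIdx (above z)]] ++ [z] := rfl
        rw [e]
        refine List.Sublist.append (List.singleton_sublist.mpr hmem') ?_
        exact List.singleton_sublist.mpr (by simp)
      exact (hg z hzC).2 _ (above_iff.mp hu) hub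
    · intro y hy
      rw [Finset.mem_erase] at hy
      have := hs hy.2
      rw [List.mem_toFinset] at this ⊢
      rw [List.mem_filter]
      refine ⟨?_, above_iff.mpr (hgt y hy.2 hy.1)⟩
      rcases (hmem y).mp this with h | h
      · exact absurd h hy.1
      · exact h
    · exact hch.mono (by
        intro y hy
        exact Finset.mem_coe.mpr (Finset.mem_of_mem_erase (Finset.mem_coe.mp hy)))
    · intro y hy
      rw [Finset.mem_erase] at hy
      obtain ⟨hy1, hy2⟩ := hg y hy.2
      refine ⟨?_, fun w hw hb => hy2 w hw
        (List.Sublist.trans (List.Sublist.trans hb List.filter_sublist) hsub)⟩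
      rw [List.mem_filter]
      refine ⟨?_, above_iff.mpr (hgt y hy.2 hy.1)⟩
      rcases (hmem y).mp hy1 with h | h
      · exact absurd h hy.1
      · exact h
    · exact Finset.mem_erase.mpr ⟨hxz, hx⟩
    · rw [List.getLast?_eq_some_iff] at hlx ⊢
      obtain ⟨ys, hys⟩ := hlx
      refine ⟨ys.filter (above z), ?_⟩
      rw [hys, List.filter_append, List.filter_singleton]
      simp [above_iff.mpr hzx]
  -- count
  unfold cc
  rw [← Finset.card_filter_add_card_filter_not (s := cset (l.insertIdx i z)) (fun C => z ∉ C)]
  refine Nat.add_le_add ?_ ?_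
  · refine Finset.card_le_card ?_
    intro C hC
    rw [Finset.mem_filter] at hC
    exact h1 C hC.1 hC.2
  · split_ifs with hcond
    · refine Finset.card_le_card_of_injOn (fun C => C.erase z) ?_ ?_
      · intro C hC
        rw [Finset.mem_coe, Finset.mem_filter, not_not] at hC
        exact (h2 C hC.1 hC.2).2
      · intro C hC D hD hCD
        rw [Finset.mem_coe, Finset.mem_filter, not_not] at hC hD
        simp only at hCD
        rw [← Finset.insert_erase hC.2, ← Finset.insert_erase hD.2, hCD]
    · rw [Nat.le_zero, Finset.card_eq_zero, Finset.filter_eq_empty_iff]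
      intro C hC hzC
      rw [not_not] at hzC
      exact hcond (h2 C hC hzC).1

lemma cc_last_le (l : List α) (z : α) (hz : z ∉ l) (hmin : ∀ y ∈ l, ¬ y < z) :
    cc (l.insertIdx l.length z) ≤ if ∀ u ∈ l, ¬ z < u then 1 else 0 := by
  classical
  have heq : l.insertIdx l.length z = l ++ [z] := by
    rw [insertIdx_eq l _ le_rfl z]; simp
  rw [heq]
  have key : ∀ C ∈ cset (l ++ [z]), C = {z} ∧ ∀ u ∈ l, ¬ z < u := by
    intro C hC
    obtain ⟨hs, hch, hg, x, hx, hlx⟩ := mem_cset.mp hC
    have hxz : x = z := by
      simpa using hlx.symm
    subst hxz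
    have hno : ∀ u ∈ l, ¬ x < u := by
      intro u hu hlt
      refine (hg x hx).2 u hlt ?_
      unfold Before
      exact List.Sublist.append (List.singleton_sublist.mpr hu) (List.Sublist.refl [x])
    refine ⟨?_, hno⟩
    ext y
    rw [Finset.mem_singleton]
    constructor
    · intro hy
      by_contra hyx
      have hyl : y ∈ l := by
        have := hs hy
        rw [List.mem_toFinset, List.mem_append, List.mem_singleton] at this
        exact this.resolve_right hyx
      rcases hch (Finset.mem_coe.mpr hy) (Finset.mem_coe.mpr hx) hyx with h | h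
      · exact hmin y hyl (lt_of_le_of_ne h hyx)
      · exact hno y hyl (lt_of_le_of_ne h (Ne.symm hyx))
    · rintro rfl; exact hx
  unfold cc
  split_ifs with hcond
  · rw [Finset.card_le_one]
    intro C hC D hD
    rw [(key C hC).1, (key D hD).1]
  · rw [Nat.le_zero, Finset.card_eq_zero, Finset.eq_empty_iff_forall_notMem]
    intro C hC
    exact hcond (key C hC).2

/-- sum of the squares -/
noncomputable def W (S : Finset α) : ℕ := ∑ l ∈ ord S, (cc l) ^ 2

lemma arith_step (m r c u : ℕ) (hr : r < m) :
    (r + 1) * (c + u) ^ 2 + (m - (r + 1)) * c ^ 2 ≤ (m + 1) * c ^ 2 + (r + 1) * (r + 2) * u ^ 2 := by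
  obtain ⟨k, rfl⟩ := Nat.exists_eq_add_of_lt hr
  have h1 : r + k + 1 - (r + 1) = k := by omega
  rw [h1]
  have h2 : 2 * ((r + 1) * (c * u)) ≤ c ^ 2 + (r + 1) ^ 2 * u ^ 2 := by
    zify
    nlinarith [sq_nonneg ((c : ℤ) - (r + 1) * u)]
  nlinarith [h2]

lemma step_pos (l : List α) (z : α) (hz : z ∉ l) (hmin : ∀ y ∈ l, ¬ y < z)
    (hU : ∃ u ∈ l, z < u) :
    ∑ i ∈ Finset.range (l.length + 1), (cc (l.insertIdx i z)) ^ 2 ≤
      (l.length + 1) * (cc l) ^ 2 + wt (above z) (fun l' => (cc l') ^ 2) l := by
  rw [Finset.sum_range_succ]
  have h0 : cc (l.insertIdx l.length z) = 0 := by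
    have := cc_last_le l z hz hmin
    rw [if_neg] at this
    · omega
    · rintro h
      obtain ⟨u, hu, hlt⟩ := hU
      exact h u hu hlt
  rw [h0]
  by_cases hl : LastIn (above z) l
  · have hr : l.findIdx (above z) < l.length := by
      obtain ⟨x, hx, hpx⟩ := hl
      exact List.findIdx_lt_length_of_exists ⟨x, List.mem_of_getLast? hx, hpx⟩
    have h1 : ∑ i ∈ Finset.range l.length, (cc (l.insertIdx i z)) ^ 2 ≤
        ∑ i ∈ Finset.range l.length, (if i ≤ l.findIdx (above z) then
          (cc l + cc (l.filter (above z))) ^ 2 else (cc l) ^ 2) := by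
      refine Finset.sum_le_sum (fun i hi => ?_)
      rw [Finset.mem_range] at hi
      have := cc_insert_le l z hz hmin i hi
      by_cases h3 : i ≤ l.findIdx (above z)
      · rw [if_pos ⟨h3, hl⟩] at this
        rw [if_pos h3]
        exact Nat.pow_le_pow_left this 2
      · rw [if_neg (fun h => h3 h.1), add_zero] at this
        rw [if_neg h3]
        exact Nat.pow_le_pow_left this 2
    rw [sum_range_ite_le _ _ _ _ hr] at h1
    have h2 := arith_step l.length (l.findIdx (above z)) (cc l) (cc (l.filter (above z))) hr
    unfold wt
    rw [if_pos hl]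
    simp only
    omega
  · have h1 : ∑ i ∈ Finset.range l.length, (cc (l.insertIdx i z)) ^ 2 ≤
        ∑ i ∈ Finset.range l.length, (cc l) ^ 2 := by
      refine Finset.sum_le_sum (fun i hi => ?_)
      rw [Finset.mem_range] at hi
      have := cc_insert_le l z hz hmin i hi
      rw [if_neg (fun h => hl h.2), add_zero] at this
      exact Nat.pow_le_pow_left this 2
    rw [Finset.sum_const, Finset.card_range, smul_eq_mul] at h1
    have h2 : l.length * cc l ^ 2 ≤ (l.length + 1) * cc l ^ 2 :=
      Nat.mul_le_mul_right _ (Nat.le_succ _)
    omega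

lemma step_zero (l : List α) (z : α) (hz : z ∉ l) (hmin : ∀ y ∈ l, ¬ y < z)
    (hU : ∀ u ∈ l, ¬ z < u) :
    ∑ i ∈ Finset.range (l.length + 1), (cc (l.insertIdx i z)) ^ 2 ≤ l.length * (cc l) ^ 2 + 1 := by
  rw [Finset.sum_range_succ]
  have h0 : cc (l.insertIdx l.length z) ≤ 1 := by
    have := cc_last_le l z hz hmin
    rw [if_pos hU] at this
    exact this
  have h1 : ∑ i ∈ Finset.range l.length, (cc (l.insertIdx i z)) ^ 2 ≤
      ∑ i ∈ Finset.range l.length, (cc l) ^ 2 := by
    refine Finset.sum_le_sum (fun i hi => ?_)
    rw [Finset.mem_range] at hi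
    have := cc_insert_le l z hz hmin i hi
    rw [if_neg, add_zero] at this
    · exact Nat.pow_le_pow_left this 2
    · rintro ⟨-, x, hx, hpx⟩
      exact hU x (List.mem_of_getLast? hx) (above_iff.mp hpx)
  rw [Finset.sum_const, Finset.card_range, smul_eq_mul] at h1
  have h2 : cc (l.insertIdx l.length z) ^ 2 ≤ 1 := by
    calc _ ≤ 1 ^ 2 := Nat.pow_le_pow_left h0 2
      _ = 1 := by norm_num
  omega

lemma card_ord (S : Finset α) : (ord S).card = S.card.factorial := by
  unfold ord
  rw [List.toFinset_card_of_nodup (List.nodup_permutations _ S.nodup_toList),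
    List.length_permutations, Finset.length_toList]

theorem W_bound (S : Finset α) : 6 * W S ≤ (S.card + 2).factorial := by
  induction hn : S.card using Nat.strong_induction_on generalizing S with
  | _ n ih =>
    subst hn
    rcases S.eq_empty_or_nonempty with hS | hS
    · subst hS
      unfold W ord
      simp [cc, cset]
    · obtain ⟨z, hzS, hzmin⟩ := S.exists_minimal hS
      set S' := S.erase z with hS'
      have hins : insert z S' = S := Finset.insert_erase hzS
      have hzS' : z ∉ S' := Finset.notMem_erase z S
      have hcard : S.card = S'.card + 1 := by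
        rw [← hins, Finset.card_insert_of_notMem hzS']
      have hmin : ∀ y ∈ S', ¬ y < z := by
        intro y hy hlt
        have := hzmin (Finset.mem_of_mem_erase hy) hlt.le
        exact absurd hlt (not_lt_of_ge this)
      have ihS' : 6 * W S' ≤ (S'.card + 2).factorial := ih S'.card (by omega) S' rfl
      have hW : W S = ∑ l ∈ ord S', ∑ i ∈ Finset.range (S'.card + 1), (cc (l.insertIdx i z)) ^ 2 := by
        unfold W
        rw [← hins]
        exact sum_ord_insert hzS' _
      set U := S'.filter (fun y => z < y) with hUdef
      by_cases hU : U.Nonempty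
      · set D := S'.filter (fun y => ¬ z < y) with hDdef
        have hDU : D ∪ U = S' := by
          rw [hDdef, hUdef, Finset.union_comm, Finset.filter_union_filter_not_eq]
        have hpU : ∀ x ∈ U, above z x = true := by
          intro x hx
          rw [hUdef, Finset.mem_filter] at hx
          exact above_iff.mpr hx.2
        have hpD : ∀ x ∈ D, above z x = false := by
          intro x hx
          rw [hDdef, Finset.mem_filter] at hx
          rw [← Bool.not_eq_true, above_iff]
          exact hx.2
        have hsum := sum_wt (above z) (fun l' => (cc l') ^ 2) U hpU hU D hpD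
        rw [hDU] at hsum
        have hWU : ∑ l ∈ ord U, (fun l' => (cc l') ^ 2) l = W U := rfl
        rw [hWU] at hsum
        have hUcard : U.card ≤ S'.card := Finset.card_filter_le _ _
        have ihU : 6 * W U ≤ (U.card + 2).factorial := ih U.card (by omega) U rfl
        have hle : W S ≤ (S'.card + 1) * W S' + ∑ l ∈ ord S', wt (above z) (fun l' => (cc l') ^ 2) l := by
          rw [hW]
          unfold W
          rw [Finset.mul_sum, ← Finset.sum_add_distrib]
          refine Finset.sum_le_sum (fun l hl => ?_)
          have hm := mem_ord.mp hl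
          have h1 := step_pos l z (fun h => hzS' ((hm.2 z).mp h)) (fun y hy => hmin y ((hm.2 y).mp hy))
            (by
              obtain ⟨u, hu⟩ := hU
              rw [hUdef, Finset.mem_filter] at hu
              exact ⟨u, (hm.2 u).mpr hu.1, hu.2⟩)
          rw [length_of_mem_ord hl] at h1
          exact h1
        set T := ∑ l ∈ ord S', wt (above z) (fun l' => (cc l') ^ 2) l with hT
        -- 6 T ≤ 2 (n+1)!
        have hT6 : 6 * T ≤ 2 * ((S'.card + 2) * (S'.card + 1).factorial) := by
          have h1 : (U.card + 1).factorial * (6 * T) ≤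
              (U.card + 1).factorial * (2 * ((S'.card + 2) * (S'.card + 1).factorial)) := by
            calc (U.card + 1).factorial * (6 * T) = 6 * ((U.card + 1).factorial * T) := by ring
              _ = 2 * (S'.card + 1).factorial * (6 * W U) := by rw [hsum]; ring
              _ ≤ 2 * (S'.card + 1).factorial * (U.card + 2).factorial :=
                  Nat.mul_le_mul_left _ ihU
              _ = 2 * (S'.card + 1).factorial * ((U.card + 2) * (U.card + 1).factorial) := by
                  rw [Nat.factorial_succ (U.card + 1)]
              _ ≤ 2 * (S'.card + 1).factorial * ((S'.card + 2) * (U.card + 1).factorial) := by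
                  refine Nat.mul_le_mul_left _ (Nat.mul_le_mul_right _ (by omega))
              _ = _ := by ring
          exact Nat.le_of_mul_le_mul_left h1 (Nat.factorial_pos _)
        rw [hcard]
        have e1 : (S'.card + 1 + 2).factorial = (S'.card + 3) * ((S'.card + 2) * (S'.card + 1).factorial) := by
          rw [Nat.factorial_succ, Nat.factorial_succ]
        have e2 : (S'.card + 2).factorial = (S'.card + 2) * (S'.card + 1).factorial :=
          Nat.factorial_succ _
        rw [e2] at ihS'
        rw [e1]
        calc 6 * W S ≤ 6 * ((S'.card + 1) * W S' + T) := Nat.mul_le_mul_left _ hle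
          _ = (S'.card + 1) * (6 * W S') + 6 * T := by ring
          _ ≤ (S'.card + 1) * ((S'.card + 2) * (S'.card + 1).factorial) +
              2 * ((S'.card + 2) * (S'.card + 1).factorial) :=
              Nat.add_le_add (Nat.mul_le_mul_left _ ihS') hT6
          _ = _ := by ring
      · have hU' : ∀ u ∈ S', ¬ z < u := by
          intro u hu hlt
          exact hU ⟨u, by rw [hUdef, Finset.mem_filter]; exact ⟨hu, hlt⟩⟩
        have hle : W S ≤ S'.card * W S' + S'.card.factorial := by
          have hc : S'.card.factorial = ∑ l ∈ ord S', 1 := by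
            rw [← card_ord S', Finset.card_eq_sum_ones]
          rw [hW, hc]
          unfold W
          rw [Finset.mul_sum, ← Finset.sum_add_distrib]
          refine Finset.sum_le_sum (fun l hl => ?_)
          have hm := mem_ord.mp hl
          have h1 := step_zero l z (fun h => hzS' ((hm.2 z).mp h)) (fun y hy => hmin y ((hm.2 y).mp hy))
            (fun u hu => hU' u ((hm.2 u).mp hu))
          rw [length_of_mem_ord hl] at h1
          exact h1
        rw [hcard]
        have e1 : (S'.card + 1 + 2).factorial =
            (S'.card + 3) * ((S'.card + 2) * ((S'.card + 1) * S'.card.factorial)) := by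
          rw [Nat.factorial_succ, Nat.factorial_succ, Nat.factorial_succ]
        have e2 : (S'.card + 2).factorial = (S'.card + 2) * ((S'.card + 1) * S'.card.factorial) := by
          rw [Nat.factorial_succ, Nat.factorial_succ]
        rw [e2] at ihS'
        rw [e1]
        calc 6 * W S ≤ 6 * (S'.card * W S' + S'.card.factorial) := Nat.mul_le_mul_left _ hle
          _ = S'.card * (6 * W S') + 6 * S'.card.factorial := by ring
          _ ≤ S'.card * ((S'.card + 2) * ((S'.card + 1) * S'.card.factorial)) +
              6 * S'.card.factorial := Nat.add_le_add_right (Nat.mul_le_mul_left _ ihS') _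
          _ ≤ _ := by nlinarith [Nat.zero_le S'.card, Nat.zero_le S'.card.factorial,
                Nat.zero_le (S'.card * S'.card.factorial), Nat.zero_le (S'.card ^ 2 * S'.card.factorial)]

end Poset

end Pool.Agent.Promotion
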